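import Pool.Agent.Helper37_BSig.Stmts

/-!
# BSIG module RunStmt: correctness of the formula `Run`
-/

namespace Pool.Agent.BSig

open Filter Cardinal

theorem natCast_npr (x y : ℕ) : ((npr x y : ℕ) : MM) = pr (x : MM) (y : MM) := by
  simp only [npr, pr]; push_cast; ring

theorem natCast_dcode (D : Dat) (i0 p : ℕ) :
    ((dcode D i0 p : ℕ) : MM) = pr (D.l : MM) (pr (D.m : MM) (pr (D.nF : MM)
      (pr ((nset (D.C.image fun e => npr e.1 (npr e.2.1 (npr e.2.2.1 e.2.2.2))) : ℕ) : MM)
      (pr ((nset D.Sg : ℕ) : MM)
      (pr ((nset (D.Fx.image fun q => npr q.1 q.2) : ℕ) : MM) (pr (i0 : MM) (p : MM))))))) + 1 := by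
  simp only [dcode, Nat.cast_add, Nat.cast_one, natCast_npr]

theorem exists_goodT_run (N : ℕ) : ∃ T, GoodT T N := by
  classical
  obtain ⟨T, hT⟩ := exists_code_finset
    ((Finset.range (N + 1)).image fun j : ℕ => pr (j : MM) (aa j))
  have hT' : ∀ u, Mem u T ↔ ∃ j : ℕ, j ≤ N ∧ u = pr (j : MM) (aa j) := by
    intro u
    rw [hT, Finset.mem_image]
    constructor
    · rintro ⟨j, hj, rfl⟩
      exact ⟨j, by have := Finset.mem_range.1 hj; omega, rfl⟩
    · rintro ⟨j, hj, rfl⟩
      exact ⟨j, Finset.mem_range.2 (by omega), rfl⟩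
  refine ⟨T, ?_, fun j hj => (hT' _).2 ⟨j, hj, rfl⟩⟩
  intro u _ hu
  obtain ⟨j, hj, rfl⟩ := (hT' u).1 hu
  cases j with
  | zero => left; rw [Nat.cast_zero]
  | succ j =>
    right
    have hm : Mem (pr (j : MM) (aa j)) T := (hT' _).2 ⟨j, by omega, rfl⟩
    refine ⟨(j : MM), (le_pr_left _ _).trans (mem_lt hm).le, aa j,
      (le_pr_right _ _).trans (mem_lt hm).le, ?_, hm⟩
    rw [Nat.cast_succ, aa_succ]

theorem run_fun {w p a b : MM} (hw : Fun w) (h1 : Mem (pr p a) w) (h2 : Mem (pr p b) w) :
    a = b :=
  hw p ((le_pr_left _ _).trans (mem_lt h1).le) a ((le_pr_right _ _).trans (mem_lt h1).le) b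
    ((le_pr_right _ _).trans (mem_lt h2).le) h1 h2

theorem goodX_mono {X : MM} {x : ℕ → MM} {i j : ℕ} (h : GoodX X x i) (hj : j ≤ i) :
    GoodX X x j := fun k hk => h k (lt_of_lt_of_le hk hj)

theorem runStmt_proof (hTC : TupCmp) : RunStmt := by
  classical
  intro φ hφ x d hd E hE n
  constructor
  · -- existence
    -- choose, for each `i`, a bound for the levels and a bound for the least tuple
    have hlev : ∀ i : ℕ, ∃ (L : ℕ) (B : MM), ∀ (T X : MM), GoodT T L → GoodX X x i → ∀ B', B ≤ B' →
        Stp φ B' T X (d i : MM) (i : MM) (x i) := by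
      intro i
      rcases hd i with ⟨h0, hx0⟩ | ⟨D, i0, p, hOk, hFx, hi0, hdc, w, hw, hmin, hpw⟩
      · refine ⟨0, 0, fun T X _ _ B' _ => Or.inl ⟨?_, hx0⟩⟩
        rw [h0, Nat.cast_zero]
      · refine ⟨D.l + ∑ e ∈ D.C, e.1, w, fun T X hT hX B' hB' => ?_⟩
        right
        have hcmp : ∀ w', Tup φ T X D.l D.m D.nF
            (nset (D.C.image fun e => npr e.1 (npr e.2.1 (npr e.2.2.1 e.2.2.2))) : ℕ)
            (nset D.Sg : ℕ) (nset (D.Fx.image fun q => npr q.1 q.2) : ℕ) i0 w' ↔
            TupE φ x D i0 w' := by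
          intro w'
          rw [hTC φ hφ x D i0 T X w' hFx hT.1 (goodX_mono hX hi0)]
          constructor
          · exact fun h => h.2.2
          · intro h
            refine ⟨hT.2 _ (Nat.le_add_right _ _), fun e he => hT.2 _ ?_, h⟩
            exact (Finset.single_le_sum (f := fun e : ℕ × ℕ × ℕ × ℕ => e.1)
              (fun _ _ => Nat.zero_le _) he).trans (Nat.le_add_left _ _)
        have hdM := natCast_dcode D i0 p
        rw [← hdc] at hdM
        have hle1 : ∀ a b : MM, a ≤ b → a ≤ b + 1 := fun a b h => h.trans (le_add_right' _ _)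
        refine ⟨_, ?_, _, ?_, _, ?_, _, ?_, _, ?_, _, ?_, _, ?_, _, ?_, hdM,
          natCast_le.2 hi0, w, hB', ⟨(hcmp w).2 hw, fun w' hw' h => hmin w' hw' ((hcmp w').1 h)⟩,
          hpw⟩
        all_goals rw [hdM]; apply hle1
        · exact le_pr_left _ _
        · exact (le_pr_left _ _).trans (le_pr_right _ _)
        · exact ((le_pr_left _ _).trans (le_pr_right _ _)).trans (le_pr_right _ _)
        · exact (((le_pr_left _ _).trans (le_pr_right _ _)).trans (le_pr_right _ _)).trans
            (le_pr_right _ _)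
        · exact ((((le_pr_left _ _).trans (le_pr_right _ _)).trans (le_pr_right _ _)).trans
            (le_pr_right _ _)).trans (le_pr_right _ _)
        · exact (((((le_pr_left _ _).trans (le_pr_right _ _)).trans (le_pr_right _ _)).trans
            (le_pr_right _ _)).trans (le_pr_right _ _)).trans (le_pr_right _ _)
        · exact ((((((le_pr_left _ _).trans (le_pr_right _ _)).trans (le_pr_right _ _)).trans
            (le_pr_right _ _)).trans (le_pr_right _ _)).trans (le_pr_right _ _)).trans
            (le_pr_right _ _)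
        · exact ((((((le_pr_right _ _).trans (le_pr_right _ _)).trans (le_pr_right _ _)).trans
            (le_pr_right _ _)).trans (le_pr_right _ _)).trans (le_pr_right _ _)).trans
            (le_pr_right _ _)
    choose L B hLB using hlev
    obtain ⟨B0, hB0⟩ : ∃ B0 : MM, ∀ i < n, B i ≤ B0 := by
      obtain ⟨b, hb⟩ := ((Finset.range n).image B).finite_toSet.bddAbove
      refine ⟨b, fun i hi => hb ?_⟩
      rw [Finset.mem_coe]
      exact Finset.mem_image_of_mem _ (Finset.mem_range.2 hi)
    obtain ⟨T, hT⟩ := exists_goodT_run (n + ∑ i ∈ Finset.range n, L i)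
    obtain ⟨X, hX⟩ := exists_code_finset ((Finset.range n).image fun j : ℕ => pr (j : MM) (x j))
    have hGX : GoodX X x n := by
      intro j hj z
      rw [hX, Finset.mem_image]
      constructor
      · rintro ⟨k, hk, h⟩
        rw [pr_inj, natCast_inj] at h
        rw [← h.2, h.1]
      · rintro rfl
        exact ⟨j, Finset.mem_range.2 hj, rfl⟩
    refine ⟨B0, T, X, ⟨hT.1, fun j hj => hT.2 j (by omega)⟩, ?_, hGX⟩
    intro i hi
    obtain ⟨k, hk, rfl⟩ := lt_natCast_iff.1 hi
    have hmem : Mem (pr (k : MM) (x k)) X := (hGX k hk _).2 rfl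
    refine ⟨⟨x k, (le_pr_right _ _).trans (mem_lt hmem).le, hmem⟩, fun y _ hy => ?_⟩
    have hyx := (hGX k hk y).1 hy
    subst hyx
    have hEm : Mem (pr (k : MM) (d k : MM)) E := (hE k _).2 rfl
    refine ⟨(d k : MM), (le_pr_right _ _).trans (mem_lt hEm).le, hEm, ?_⟩
    refine hLB k T X ⟨hT.1, fun j hj => hT.2 j ?_⟩ (goodX_mono hGX hk.le) B0 (hB0 k hk)
    have := Finset.single_le_sum (f := L) (fun _ _ => Nat.zero_le _) (Finset.mem_range.2 hk)
    omega
  · -- uniqueness
    intro B T X hT hR
    have key : ∀ i : ℕ, i ≤ n → GoodX X x i := by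
      intro i
      induction i with
      | zero => intro _ j hj; exact absurd hj (Nat.not_lt_zero _)
      | succ i ih =>
        intro hi
        have ih' := ih (by omega)
        obtain ⟨⟨y, _, hy⟩, hall⟩ := hR (i : MM) (natCast_lt.2 (by omega))
        have huni : ∀ z, Mem (pr (i : MM) z) X → z = x i := by
          intro z hz
          obtain ⟨δ, _, hδ, hS⟩ := hall z ((le_pr_right _ _).trans (mem_lt hz).le) hz
          have hδ' := (hE i δ).1 hδ
          subst hδ'
          rcases hd i with ⟨h0, hx0⟩ | ⟨D, i0, p, hOk, hFx, hi0, hdc, w, hw, hmin, hpw⟩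
          · rcases hS with ⟨_, h2⟩ | ⟨l, _, m, _, nF, _, C, _, Sg, _, Fx, _, i0, _, p, _, h, _⟩
            · rw [h2, hx0]
            · exfalso
              rw [h0, Nat.cast_zero] at h
              have h1 : (0 : MM) < 0 := by
                conv_rhs => rw [h]
                exact (PAExp.discrete _ _).2 (by
                  rw [zero_add]; exact le_add_left' _ _)
              exact lt_irrefl _ h1
          · have hdM := natCast_dcode D i0 p
            rw [← hdc] at hdM
            rcases hS with ⟨h1, _⟩ | ⟨l, _, m, _, nF, _, C, _, Sg, _, Fx, _, i0', _, p', _, h,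
              _, w', _, hL, hpw'⟩
            · exfalso
              rw [hdM] at h1
              have h2 : (0 : MM) < 0 := by
                conv_rhs => rw [← h1]
                exact (PAExp.discrete _ _).2 (by
                  rw [zero_add]; exact le_add_left' _ _)
              exact lt_irrefl _ h2
            · rw [hdM] at h
              have h' := PAExp.add_cancel' _ _ _ h
              rw [pr_inj, pr_inj, pr_inj, pr_inj, pr_inj, pr_inj, pr_inj] at h'
              obtain ⟨rfl, rfl, rfl, rfl, rfl, rfl, rfl, rfl⟩ := h'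
              have hcmp := fun w' => hTC φ hφ x D i0 T X w' hFx hT (goodX_mono ih' hi0)
              have h1 := (hcmp w').1 hL.1
              have hmin' : ∀ w'', w'' < w' → ¬ TupE φ x D i0 w'' := by
                intro w'' hw'' hE''
                exact hL.2 w'' hw'' ((hcmp w'').2 ⟨h1.1, h1.2.1, hE''⟩)
              have hww : w = w' := by
                rcases lt_trichotomy w w' with h3 | h3 | h3
                · exact absurd hw (hmin' w h3)
                · exact h3
                · exact absurd h1.2.2 (hmin w' h3)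
              subst hww
              exact run_fun hw.1 hpw' hpw
        intro j hj z
        rcases Nat.lt_succ_iff_lt_or_eq.1 hj with h | rfl
        · exact ih' j h z
        · constructor
          · exact huni z
          · rintro rfl
            rw [← huni y hy]; exact hy
    exact key n le_rfl

end Pool.Agent.BSig
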